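import Pool.Agent.TH787.Sil.Defs
set_option autoImplicit false
namespace Pool.Agent.TH787.Sil
open Pool.Agent.Results.MP_4c1ea5_lc.ZFCClosed Pool.Agent.Helper743

namespace Mtx

open Pool.Agent.H448R3 (er er_zero er_succ er_mono)

/-! ### closure properties -/

lemma bin {O : Set (ℕ →. ℕ)} {F : ℕ → ℕ → ℕ} (hF : Primrec₂ F) {f g : ℕ → ℕ} (hf : RecT O f)
    (hg : RecT O g) : RecT O (fun n => F (f n) (g n)) := by
  have c : Computable (fun z : ℕ => F z.unpair.1 z.unpair.2) :=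
    (hF.comp (Primrec.fst.comp Primrec.unpair) (Primrec.snd.comp Primrec.unpair)).to_comp
  have h := (Computable.recT (O := O) c).comp (hf.pair hg)
  refine Nat.RecursiveIn.of_eq h ?_
  intro n
  simp

lemma cst {O : Set (ℕ →. ℕ)} (c : ℕ) : RecT O (fun _ => c) :=
  Computable.recT (Computable.const c)

lemma rid {O : Set (ℕ →. ℕ)} : RecT O (fun n => n) := Computable.recT Computable.id

lemma un1 {O : Set (ℕ →. ℕ)} : RecT O (fun n => n.unpair.1) :=
  Computable.recT (Computable.fst.comp Computable.unpair)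

lemma un2 {O : Set (ℕ →. ℕ)} : RecT O (fun n => n.unpair.2) :=
  Computable.recT (Computable.snd.comp Computable.unpair)

lemma add {O : Set (ℕ →. ℕ)} {f g : ℕ → ℕ} (hf : RecT O f) (hg : RecT O g) :
    RecT O (fun n => f n + g n) := bin Primrec.nat_add hf hg

lemma sub {O : Set (ℕ →. ℕ)} {f g : ℕ → ℕ} (hf : RecT O f) (hg : RecT O g) :
    RecT O (fun n => f n - g n) := bin Primrec.nat_sub hf hg

lemma mul {O : Set (ℕ →. ℕ)} {f g : ℕ → ℕ} (hf : RecT O f) (hg : RecT O g) :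
    RecT O (fun n => f n * g n) := bin Primrec.nat_mul hf hg

lemma rmod {O : Set (ℕ →. ℕ)} {f g : ℕ → ℕ} (hf : RecT O f) (hg : RecT O g) :
    RecT O (fun n => f n % g n) := bin Primrec.nat_mod hf hg

lemma rdiv {O : Set (ℕ →. ℕ)} {f g : ℕ → ℕ} (hf : RecT O f) (hg : RecT O g) :
    RecT O (fun n => f n / g n) := bin Primrec.nat_div hf hg

lemma cpow : Computable fun n : ℕ => 2 ^ n := by
  have h1 : Primrec fun n : ℕ => Nat.rec (motive := fun _ => ℕ) 1 (fun _ y => 2 * y) n :=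
    Primrec.nat_rec₁ 1 ((Primrec.nat_mul.comp (Primrec.const 2) Primrec.snd).to₂)
  refine h1.to_comp.of_eq ?_
  intro n
  induction n with
  | zero => rfl
  | succ n ih =>
    show 2 * _ = _
    rw [ih]; ring

lemma rpow {O : Set (ℕ →. ℕ)} {f : ℕ → ℕ} (hf : RecT O f) : RecT O (fun n => 2 ^ f n) :=
  (Computable.recT (O := O) cpow).comp hf

lemma rlog {O : Set (ℕ →. ℕ)} {f : ℕ → ℕ} (hf : RecT O f) : RecT O (fun n => Nat.log 2 (f n)) := by
  have hq : RecT O (fun z : ℕ => z.unpair.1 + 1 - 2 ^ (z.unpair.2 + 1)) :=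
    sub (add un1 (cst 1)) (rpow (add un2 (cst 1)))
  have hex : ∀ a, ∃ n, (fun z : ℕ => z.unpair.1 + 1 - 2 ^ (z.unpair.2 + 1)) (Nat.pair a n) = 0 := by
    intro a
    refine ⟨a, ?_⟩
    simp only [Nat.unpair_pair]
    have : a + 1 < 2 ^ (a + 1) := Nat.lt_pow_self (by norm_num)
    omega
  have h := (RecT.find hq hex).comp hf
  refine Nat.RecursiveIn.of_eq h ?_
  intro n
  congr 1
  rw [Nat.find_eq_iff]
  simp only [Nat.unpair_pair]
  constructor
  · have := Nat.lt_pow_succ_log_self (b := 2) (by norm_num) (f n)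
    omega
  · intro m hm
    have h0 : f n ≠ 0 := by
      intro h0
      rw [h0] at hm
      simp at hm
    have h1 : 2 ^ (m + 1) ≤ 2 ^ Nat.log 2 (f n) := Nat.pow_le_pow_right (by norm_num) hm
    have h2 := Nat.pow_log_le_self 2 h0
    omega

/-! ### indicators -/

lemma ind01 (A : Set ℕ) (n : ℕ) : ind A n = 0 ∨ ind A n = 1 := by
  classical
  unfold ind
  by_cases hn : n ∈ A
  · right; rw [if_pos hn]
  · left; rw [if_neg hn]

lemma ind_one {A : Set ℕ} {n : ℕ} (h : n ∈ A) : ind A n = 1 := by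
  classical
  unfold ind
  rw [if_pos h]

lemma ind_zero {A : Set ℕ} {n : ℕ} (h : n ∉ A) : ind A n = 0 := by
  classical
  unfold ind
  rw [if_neg h]

lemma join_even (M M' : Set ℕ) (n : ℕ) : ind (joinSet M M') (2 * n) = ind M n := by
  by_cases hn : n ∈ M
  · rw [ind_one hn]
    exact ind_one (Or.inl ⟨n, hn, rfl⟩)
  · rw [ind_zero hn]
    apply ind_zero
    rintro (⟨m, hm, h⟩ | ⟨m, hm, h⟩)
    · have : n = m := by omega
      rw [this] at hn
      exact hn hm
    · omega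

lemma join_odd (M M' : Set ℕ) (n : ℕ) : ind (joinSet M M') (2 * n + 1) = ind M' n := by
  by_cases hn : n ∈ M'
  · rw [ind_one hn]
    exact ind_one (Or.inr ⟨n, hn, rfl⟩)
  · rw [ind_zero hn]
    apply ind_zero
    rintro (⟨m, hm, h⟩ | ⟨m, hm, h⟩)
    · omega
    · have : n = m := by omega
      rw [this] at hn
      exact hn hm

lemma le_left (A B : Set ℕ) :
    RecT {((ind (joinSet A B) : ℕ → ℕ) : ℕ →. ℕ)} (ind A) := by
  have h := (TR.refl (ind (joinSet A B))).comp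
    (mul (O := {((ind (joinSet A B) : ℕ → ℕ) : ℕ →. ℕ)}) (cst 2) rid)
  have e : (fun n => ind (joinSet A B) (2 * n)) = ind A := funext (join_even A B)
  rwa [e] at h

lemma le_right (A B : Set ℕ) :
    RecT {((ind (joinSet A B) : ℕ → ℕ) : ℕ →. ℕ)} (ind B) := by
  have h := (TR.refl (ind (joinSet A B))).comp
    (add (O := {((ind (joinSet A B) : ℕ → ℕ) : ℕ →. ℕ)}) (mul (cst 2) rid) (cst 1))
  have e : (fun n => ind (joinSet A B) (2 * n + 1)) = ind B := funext (join_odd A B)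
  rwa [e] at h

lemma union_mem {U : Set (Set ℕ)} (hU : TuringIdeal U) {A B : Set ℕ} (hA : A ∈ U) (hB : B ∈ U) :
    A ∪ B ∈ U := by
  refine hU.down _ (hU.join A hA B hB) _ ?_
  rw [le_iff]
  have h : RecT {((ind (joinSet A B) : ℕ → ℕ) : ℕ →. ℕ)}
      (fun n => 1 - (1 - ind A n) * (1 - ind B n)) :=
    sub (cst 1) (mul (sub (cst 1) (le_left A B)) (sub (cst 1) (le_right A B)))
  have e : (fun n => 1 - (1 - ind A n) * (1 - ind B n)) = ind (A ∪ B) := by
    funext n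
    by_cases h1 : n ∈ A
    · rw [ind_one h1, ind_one (show n ∈ A ∪ B from Or.inl h1)]; simp
    · by_cases h2 : n ∈ B
      · rw [ind_one h2, ind_one (show n ∈ A ∪ B from Or.inr h2)]; simp
      · rw [ind_zero h1, ind_zero h2, ind_zero (by rintro (h | h) <;> contradiction)]
  rw [e] at h
  exact h

lemma empty_mem {U : Set (Set ℕ)} (hU : TuringIdeal U) : (∅ : Set ℕ) ∈ U := by
  obtain ⟨A, hA⟩ := hU.nonempty
  refine hU.down _ hA _ ?_
  rw [le_iff]
  have h : RecT {((ind A : ℕ → ℕ) : ℕ →. ℕ)} (fun _ => 0) := cst 0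
  have e : (fun _ => 0) = ind (∅ : Set ℕ) := by
    funext n
    rw [ind_zero (by simp)]
  rw [e] at h
  exact h

/-! ### columns -/

def mcol (n m : ℕ) : ℕ := 2 ^ n * (2 * m + 1) - 1

lemma mcol_succ (n m : ℕ) : mcol n m + 1 = 2 ^ n * (2 * m + 1) := by
  unfold mcol
  have : 0 < 2 ^ n * (2 * m + 1) := by positivity
  omega

lemma mcol_div (n m : ℕ) : (mcol n m + 1) / 2 ^ (n + 1) = m := by
  rw [mcol_succ]
  have h : 2 ^ n * (2 * m + 1) = 2 ^ n + 2 ^ (n + 1) * m := by ring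
  rw [h, Nat.add_mul_div_left _ _ (by positivity), Nat.div_eq_of_lt, zero_add]
  exact Nat.pow_lt_pow_right (by norm_num) (by omega)

lemma mcol_mod (n m : ℕ) : (mcol n m + 1) % 2 ^ (n + 1) = 2 ^ n := by
  rw [mcol_succ]
  have h : 2 ^ n * (2 * m + 1) = 2 ^ n + 2 ^ (n + 1) * m := by ring
  rw [h, Nat.add_mul_mod_self_left, Nat.mod_eq_of_lt]
  exact Nat.pow_lt_pow_right (by norm_num) (by omega)

lemma eq_mcol {n j : ℕ} (h : (j + 1) % 2 ^ (n + 1) = 2 ^ n) :
    j = mcol n ((j + 1) / 2 ^ (n + 1)) := by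
  have h1 := Nat.div_add_mod (j + 1) (2 ^ (n + 1))
  rw [h] at h1
  have h2 := mcol_succ n ((j + 1) / 2 ^ (n + 1))
  have h3 : 2 ^ n * (2 * ((j + 1) / 2 ^ (n + 1)) + 1) =
      2 ^ (n + 1) * ((j + 1) / 2 ^ (n + 1)) + 2 ^ n := by ring
  omega

lemma mcol_lt (n m : ℕ) : mcol n m < mcol n (m + 1) := by
  have h1 := mcol_succ n m
  have h2 := mcol_succ n (m + 1)
  have h3 : 2 ^ n * (2 * (m + 1) + 1) = 2 ^ n * (2 * m + 1) + 2 * 2 ^ n := by ring
  have : 0 < 2 ^ n := by positivity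
  omega

lemma mcol_ge (n m : ℕ) : m ≤ mcol n m := by
  have h1 := mcol_succ n m
  have h2 : 1 * (2 * m + 1) ≤ 2 ^ n * (2 * m + 1) := Nat.mul_le_mul_right _ (Nat.one_le_two_pow)
  omega

lemma rmcol {O : Set (ℕ →. ℕ)} {f g : ℕ → ℕ} (hf : RecT O f) (hg : RecT O g) :
    RecT O (fun n => mcol (f n) (g n)) :=
  sub (mul (rpow hf) (add (mul (cst 2) hg) (cst 1))) (cst 1)

/-- the set `D` copied to column `i` -/
def cs (D : Set ℕ) (i : ℕ) : Set ℕ := {j | ∃ m, j = mcol i m ∧ Nat.log 2 m ∈ D}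

lemma cs_mem {U : Set (Set ℕ)} (hU : TuringIdeal U) {D : Set ℕ} (hD : D ∈ U) (i : ℕ) :
    cs D i ∈ U := by
  refine hU.down _ hD _ ?_
  rw [le_iff]
  have hx : ∀ O : Set (ℕ →. ℕ), RecT O (fun j => 1 - (((j + 1) % 2 ^ (i + 1) - 2 ^ i) +
      (2 ^ i - (j + 1) % 2 ^ (i + 1)))) := by
    intro O
    have h1 : RecT O (fun j => (j + 1) % 2 ^ (i + 1)) :=
      rmod (add rid (cst 1)) (cst (2 ^ (i + 1)))
    exact sub (cst 1) (add (sub h1 (cst (2 ^ i))) (sub (cst (2 ^ i)) h1))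
  have hy : RecT {((ind D : ℕ → ℕ) : ℕ →. ℕ)}
      (fun j => ind D (Nat.log 2 ((j + 1) / 2 ^ (i + 1)))) :=
    (TR.refl (ind D)).comp (rlog (rdiv (add rid (cst 1)) (cst (2 ^ (i + 1)))))
  have h := mul (hx _) hy
  have e : (fun j => (1 - (((j + 1) % 2 ^ (i + 1) - 2 ^ i) +
      (2 ^ i - (j + 1) % 2 ^ (i + 1)))) * ind D (Nat.log 2 ((j + 1) / 2 ^ (i + 1)))) =
      ind (cs D i) := by
    funext j
    by_cases h1 : (j + 1) % 2 ^ (i + 1) = 2 ^ i
    · rw [h1]
      simp only [Nat.sub_self, add_zero, Nat.sub_zero, one_mul]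
      by_cases h2 : Nat.log 2 ((j + 1) / 2 ^ (i + 1)) ∈ D
      · rw [ind_one h2, ind_one]
        exact ⟨_, eq_mcol h1, h2⟩
      · rw [ind_zero h2, ind_zero]
        rintro ⟨m, rfl, hm⟩
        rw [mcol_div] at h2
        exact h2 hm
    · have h3 : 1 - (((j + 1) % 2 ^ (i + 1) - 2 ^ i) + (2 ^ i - (j + 1) % 2 ^ (i + 1))) = 0 := by
        omega
      rw [h3, zero_mul, ind_zero]
      rintro ⟨m, rfl, hm⟩
      rw [mcol_mod] at h1
      exact h1 rfl
  rw [e] at h
  exact h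

/-- the first `k` columns -/
def part (D : ℕ → Set ℕ) (k : ℕ) : Set ℕ := {j | ∃ i < k, j ∈ cs (D i) i}

lemma part_mem {U : Set (Set ℕ)} (hU : TuringIdeal U) {D : ℕ → Set ℕ} (hD : ∀ n, D n ∈ U)
    (k : ℕ) : part D k ∈ U := by
  induction k with
  | zero =>
    have : part D 0 = ∅ := by
      ext j
      simp [part]
    rw [this]
    exact empty_mem hU
  | succ k ih =>
    have : part D (k + 1) = part D k ∪ cs (D k) k := by
      ext j
      simp only [part, Set.mem_union, Set.mem_ofPred_eq]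
      constructor
      · rintro ⟨i, hi, h⟩
        rcases Nat.lt_or_ge i k with h1 | h1
        · exact Or.inl ⟨i, h1, h⟩
        · have : i = k := by omega
          subst this
          exact Or.inr h
      · rintro (⟨i, hi, h⟩ | h)
        · exact ⟨i, by omega, h⟩
        · exact ⟨k, by omega, h⟩
    rw [this]
    exact union_mem hU ih (cs_mem hU (hD k) k)

/-- all columns -/
def full (D : ℕ → Set ℕ) : Set ℕ := {j | ∃ i, j ∈ cs (D i) i}

lemma full_col (D : ℕ → Set ℕ) (n m : ℕ) : mcol n m ∈ full D ↔ Nat.log 2 m ∈ D n := by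
  constructor
  · rintro ⟨i, m', h1, h2⟩
    have h3 : 2 ^ n * (2 * m + 1) = 2 ^ i * (2 * m' + 1) := by
      rw [← mcol_succ, ← mcol_succ, h1]
    have h4 : n = i := by
      rcases Nat.lt_trichotomy n i with h | h | h
      · exfalso
        obtain ⟨d, rfl⟩ := Nat.exists_eq_add_of_lt h
        have h5 : 2 ^ (n + d + 1) * (2 * m' + 1) = 2 ^ n * (2 * (2 ^ d * (2 * m' + 1))) := by ring
        rw [h5] at h3
        have h6 := Nat.eq_of_mul_eq_mul_left (by positivity) h3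
        omega
      · exact h
      · exfalso
        obtain ⟨d, rfl⟩ := Nat.exists_eq_add_of_lt h
        have h5 : 2 ^ (i + d + 1) * (2 * m + 1) = 2 ^ i * (2 * (2 ^ d * (2 * m + 1))) := by ring
        rw [h5] at h3
        have h6 := Nat.eq_of_mul_eq_mul_left (by positivity) h3
        omega
    subst h4
    have h6 := Nat.eq_of_mul_eq_mul_left (by positivity) h3
    have h7 : m = m' := by omega
    rw [h7]
    exact h2
  · intro h
    exact ⟨n, m, rfl, h⟩

lemma diff_sub (D : ℕ → Set ℕ) (k : ℕ) :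
    symmDiff (full D) (part D k) ⊆ {j | 2 ^ k ∣ j + 1} := by
  intro j hj
  rw [Set.mem_symmDiff] at hj
  rcases hj with ⟨⟨i, hi⟩, h2⟩ | ⟨⟨i, _, hi⟩, h2⟩
  · have hik : k ≤ i := by
      by_contra hik
      exact h2 ⟨i, by omega, hi⟩
    obtain ⟨m, rfl, -⟩ := hi
    show 2 ^ k ∣ mcol i m + 1
    rw [mcol_succ]
    exact Dvd.dvd.mul_right (pow_dvd_pow 2 hik) _
  · exact absurd ⟨i, hi⟩ h2

lemma ratio_small (X : Set ℕ) (k : ℕ) (h : X ⊆ {j | 2 ^ k ∣ j + 1}) (n : ℕ) :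
    ratio X n ≤ 1 / 2 ^ k := by
  classical
  unfold ratio
  rcases Nat.eq_zero_or_pos n with rfl | hn
  · simp
  have h1 : ((Finset.range n).filter (fun j => j ∈ X)).card ≤ n / 2 ^ k := by
    rw [← Nat.card_multiples n (2 ^ k)]
    apply Finset.card_le_card
    intro j hj
    rw [Finset.mem_filter] at hj ⊢
    exact ⟨hj.1, h hj.2⟩
  have h2 : ((n / 2 ^ k : ℕ) : ℝ) ≤ (n : ℝ) / 2 ^ k := by
    have := Nat.cast_div_le (α := ℝ) (m := n) (n := 2 ^ k)
    push_cast at this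
    exact this
  have h3 : ((((Finset.range n).filter (fun j => j ∈ X)).card : ℕ) : ℝ) ≤ (n : ℝ) / 2 ^ k :=
    le_trans (by exact_mod_cast h1) h2
  have hn' : (0 : ℝ) < n := by exact_mod_cast hn
  rw [div_le_iff₀ hn']
  calc _ ≤ (n : ℝ) / 2 ^ k := by convert h3
    _ = _ := by ring

lemma full_near {U : Set (Set ℕ)} (hU : TuringIdeal U) (hc : IsClosed (generated U))
    {D : ℕ → Set ℕ} (hD : ∀ n, D n ∈ U) : ∃ B ∈ U, CoarselySimilar (full D) B := by
  have h1 : cls (full D) ∈ closure (generated U) := by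
    rw [Metric.mem_closure_iff]
    intro ε hε
    obtain ⟨k, hk⟩ := exists_pow_lt_of_lt_one hε (show (1 / 2 : ℝ) < 1 by norm_num)
    refine ⟨cls (part D k), ⟨_, part_mem hU hD k, rfl⟩, ?_⟩
    rw [dist_cls]
    refine lt_of_le_of_lt (ud_le (r := 1 / 2 ^ k) ?_) ?_
    · exact Filter.Eventually.of_forall (ratio_small _ k (diff_sub D k))
    · rwa [one_div_pow] at hk
  rw [hc.closure_eq] at h1
  obtain ⟨B, hB, h2⟩ := h1
  exact ⟨B, hB, (Quotient.exact h2.symm : _)⟩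

/-! ### decoding by majority -/

/-- the number of elements of the block `s` of column `n` in `B` -/
noncomputable def cnt (B : Set ℕ) (n s k : ℕ) : ℕ :=
  Nat.rec 0 (fun y ih => ih + ind B (mcol n (2 ^ s + y))) k

lemma cnt_succ (B : Set ℕ) (n s k : ℕ) :
    cnt B n s (k + 1) = cnt B n s k + ind B (mcol n (2 ^ s + k)) := rfl

lemma log_block {s y : ℕ} (h : y < 2 ^ s) : Nat.log 2 (2 ^ s + y) = s := by
  have := Nat.pos_of_ne_zero (n := 2 ^ s) (by positivity)
  refine (Nat.log_eq_iff (Or.inr ⟨by norm_num, by omega⟩)).2 ⟨by omega, ?_⟩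
  rw [pow_succ]
  omega

lemma cnt_zero {A B : Set ℕ} {n s k : ℕ} (hk : k ≤ 2 ^ s)
    (h : ∀ y < 2 ^ s, ind A (mcol n (2 ^ s + y)) = 0) :
    cnt B n s k ≤ er (ind A) (ind B) (mcol n (2 ^ s + k)) := by
  induction k with
  | zero => exact Nat.zero_le _
  | succ k ih =>
    have h1 := ih (by omega)
    have h2 := er_mono (ind A) (ind B) (mcol_lt n (2 ^ s + k))
    rw [Nat.succ_eq_add_one, er_succ, h k (by omega)] at h2
    rw [cnt_succ]
    rcases ind01 B (mcol n (2 ^ s + k)) with h3 | h3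
    · rw [h3] at h2 ⊢
      simp only [if_true, add_zero] at h2 ⊢
      exact h1.trans h2
    · rw [h3] at h2 ⊢
      rw [if_neg (by norm_num)] at h2
      have : 2 ^ s + (k + 1) = 2 ^ s + k + 1 := by ring
      rw [this]
      omega

lemma cnt_one {A B : Set ℕ} {n s k : ℕ} (hk : k ≤ 2 ^ s)
    (h : ∀ y < 2 ^ s, ind A (mcol n (2 ^ s + y)) = 1) :
    k ≤ cnt B n s k + er (ind A) (ind B) (mcol n (2 ^ s + k)) := by
  induction k with
  | zero => exact Nat.zero_le _
  | succ k ih =>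
    have h1 := ih (by omega)
    have h2 := er_mono (ind A) (ind B) (mcol_lt n (2 ^ s + k))
    rw [Nat.succ_eq_add_one, er_succ, h k (by omega)] at h2
    rw [cnt_succ]
    have he : 2 ^ s + (k + 1) = 2 ^ s + k + 1 := by ring
    rcases ind01 B (mcol n (2 ^ s + k)) with h3 | h3
    · rw [h3] at h2 ⊢
      rw [if_neg (by norm_num)] at h2
      rw [he]
      omega
    · rw [h3] at h2 ⊢
      rw [if_pos rfl] at h2
      rw [he]
      omega

/-- the decoded matrix -/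
def mat (B : Set ℕ) : Set ℕ :=
  {x | 2 ^ x.unpair.2 < 2 * cnt B x.unpair.1 x.unpair.2 (2 ^ x.unpair.2)}

lemma mat_mem {U : Set (Set ℕ)} (hU : TuringIdeal U) {B : Set ℕ} (hB : B ∈ U) : mat B ∈ U := by
  refine hU.down _ hB _ ?_
  rw [le_iff]
  set O : Set (ℕ →. ℕ) := {((ind B : ℕ → ℕ) : ℕ →. ℕ)} with hO
  have hG : RecT O (ind B) := TR.refl _
  have h1 : RecT O (fun z => z.unpair.2.unpair.2 +
      ind B (mcol z.unpair.1.unpair.1 (2 ^ z.unpair.1.unpair.2 + z.unpair.2.unpair.1))) :=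
    add (un2.comp un2)
      (hG.comp (rmcol (un1.comp un1) (add (rpow (un2.comp un1)) (un1.comp un2))))
  have h2 := RecT.prec (f := fun _ => 0) (cst 0) h1
  have h3 := h2.comp (RecT.pair (O := O) rid (rpow un2))
  have h4 : RecT O (fun x => cnt B x.unpair.1 x.unpair.2 (2 ^ x.unpair.2)) := by
    refine Nat.RecursiveIn.of_eq h3 ?_
    intro x
    congr 1
    simp only [Nat.unpair_pair, cnt]
  have h5 : RecT O (fun x => 1 - (1 - (2 * cnt B x.unpair.1 x.unpair.2 (2 ^ x.unpair.2) -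
      2 ^ x.unpair.2))) :=
    sub (cst 1) (sub (cst 1) (sub (mul (cst 2) h4) (rpow un2)))
  have e : (fun x => 1 - (1 - (2 * cnt B x.unpair.1 x.unpair.2 (2 ^ x.unpair.2) -
      2 ^ x.unpair.2))) = ind (mat B) := by
    funext x
    by_cases hx : x ∈ mat B
    · rw [ind_one hx]
      have : 2 ^ x.unpair.2 < 2 * cnt B x.unpair.1 x.unpair.2 (2 ^ x.unpair.2) := hx
      omega
    · rw [ind_zero hx]
      have : ¬ (2 ^ x.unpair.2 < 2 * cnt B x.unpair.1 x.unpair.2 (2 ^ x.unpair.2)) := hx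
      omega
  rw [e] at h5
  exact h5

end Mtx

open Mtx in
theorem matrix {U : Set (Set ℕ)} (hU : TuringIdeal U) (hc : IsClosed (generated U))
    (D : ℕ → Set ℕ) (hD : ∀ n, D n ∈ U) :
    ∃ M ∈ U, ∀ n, ∃ v, ∀ s, v ≤ s → (Nat.pair n s ∈ M ↔ s ∈ D n) := by
  obtain ⟨B, hB, hs⟩ := full_near hU hc hD
  refine ⟨mat B, mat_mem hU hB, fun n => ?_⟩
  have hlt : upperDensity (symmDiff (full D) B) < 1 / (((2 ^ (n + 5) : ℕ) : ℝ) + 1) := by
    rw [ud_zero_iff.2 hs]; positivity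
  obtain ⟨m0, hm0⟩ := few (2 ^ (n + 5)) hlt
  refine ⟨m0, fun s hs => ?_⟩
  have h2 : 2 ^ s + 2 ^ s = 2 ^ (s + 1) := by ring
  have h3 : m0 ≤ mcol n (2 ^ s + 2 ^ s) := by
    refine hs.trans (le_trans ?_ (mcol_ge _ _))
    have : s < 2 ^ s := Nat.lt_pow_self (by norm_num)
    omega
  have h4 := hm0 _ h3
  have h5 := mcol_succ n (2 ^ s + 2 ^ s)
  set e := Pool.Agent.H448R3.er (ind (full D)) (ind B) (mcol n (2 ^ s + 2 ^ s)) with he
  have h6 : 2 ^ n * (e * 32) ≤ 2 ^ n * (2 * (2 ^ s + 2 ^ s) + 1) := by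
    rw [← h5]
    have : 2 ^ n * (e * 32) = e * 2 ^ (n + 5) := by ring
    rw [this]
    omega
  have h7 := Nat.le_of_mul_le_mul_left h6 (by positivity)
  have hpos : 0 < 2 ^ s := by positivity
  show 2 ^ (Nat.pair n s).unpair.2 < 2 * cnt B (Nat.pair n s).unpair.1 (Nat.pair n s).unpair.2
    (2 ^ (Nat.pair n s).unpair.2) ↔ _
  simp only [Nat.unpair_pair]
  by_cases hsD : s ∈ D n
  · have h8 := cnt_one (A := full D) (B := B) (n := n) (s := s) (k := 2 ^ s) le_rfl (by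
      intro y hy
      apply ind_one
      rw [full_col, log_block hy]
      exact hsD)
    rw [← he] at h8
    exact ⟨fun _ => hsD, fun _ => by omega⟩
  · have h8 := cnt_zero (A := full D) (B := B) (n := n) (s := s) (k := 2 ^ s) le_rfl (by
      intro y hy
      apply ind_zero
      rw [full_col, log_block hy]
      exact hsD)
    rw [← he] at h8
    exact ⟨fun h => by omega, fun h => absurd h hsD⟩

end Pool.Agent.TH787.Sil
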