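import Pool.Agent.TH787.Sil.Defs
set_option autoImplicit false
namespace Pool.Agent.TH787.Sil
open Pool.Agent.Results.MP_4c1ea5_lc.ZFCClosed Pool.Agent.Helper743

lemma ind_even (M M' : Set ℕ) (n : ℕ) : ind (joinSet M M') (2 * n) = ind M n := by
  classical
  unfold ind
  have h : 2 * n ∈ joinSet M M' ↔ n ∈ M := by
    constructor
    · rintro (⟨m, hm, h⟩ | ⟨m, hm, h⟩)
      · have : n = m := by omega
        rw [this]; exact hm
      · omega
    · intro h
      exact Or.inl ⟨n, h, rfl⟩
  by_cases hn : n ∈ M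
  · rw [if_pos hn, if_pos (h.2 hn)]
  · rw [if_neg hn, if_neg (fun hh => hn (h.1 hh))]

lemma ind_odd (M M' : Set ℕ) (n : ℕ) : ind (joinSet M M') (2 * n + 1) = ind M' n := by
  classical
  unfold ind
  have h : 2 * n + 1 ∈ joinSet M M' ↔ n ∈ M' := by
    constructor
    · rintro (⟨m, hm, h⟩ | ⟨m, hm, h⟩)
      · omega
      · have : n = m := by omega
        rw [this]; exact hm
    · intro h
      exact Or.inr ⟨n, h, rfl⟩
  by_cases hn : n ∈ M'
  · rw [if_pos hn, if_pos (h.2 hn)]
  · rw [if_neg hn, if_neg (fun hh => hn (h.1 hh))]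

lemma ind_zero_or_one (A : Set ℕ) (n : ℕ) : ind A n = 0 ∨ ind A n = 1 := by
  classical
  unfold ind
  by_cases hn : n ∈ A
  · right; rw [if_pos hn]
  · left; rw [if_neg hn]

lemma ind_eq_iff (A B : Set ℕ) (n : ℕ) : ind A n = ind B n ↔ (n ∈ A ↔ n ∈ B) := by
  classical
  unfold ind
  by_cases h1 : n ∈ A <;> by_cases h2 : n ∈ B <;> simp [h1, h2]

/-- `1` if the two sets differ at `x`, `0` otherwise -/
noncomputable def dif (M M' : Set ℕ) (x : ℕ) : ℕ :=
  (ind M x - ind M' x) + (ind M' x - ind M x)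

lemma dif_eq (M M' : Set ℕ) (x : ℕ) :
    (dif M M' x = 0 ∧ (x ∈ M ↔ x ∈ M')) ∨ (dif M M' x = 1 ∧ ¬ (x ∈ M ↔ x ∈ M')) := by
  rw [← ind_eq_iff]
  unfold dif
  rcases ind_zero_or_one M x with h1 | h1 <;> rcases ind_zero_or_one M' x with h2 | h2 <;>
    rw [h1, h2] <;> simp

theorem decode (M M' X : Set ℕ) (v : ℕ → ℕ)
    (h1 : ∀ i t, v i ≤ t → ∃ s, t ≤ s ∧
      ¬ (Nat.pair (2 * i + ind X i) s ∈ M ↔ Nat.pair (2 * i + ind X i) s ∈ M'))
    (h2 : ∀ i s, v i ≤ s →
      (Nat.pair (2 * i + (1 - ind X i)) s ∈ M ↔ Nat.pair (2 * i + (1 - ind X i)) s ∈ M'))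
    (h3 : ∀ i s, v i ≤ s →
      ¬ (Nat.pair (2 * i + ind X i) s ∈ M ↔ Nat.pair (2 * i + ind X i) s ∈ M') →
      v (i + 1) ≤ s) :
    TuringLE X (joinSet M M') := by
  rw [le_iff]
  show RecT {((ind (joinSet M M') : ℕ → ℕ) : ℕ →. ℕ)} (ind X)
  set O : Set (ℕ →. ℕ) := {((ind (joinSet M M') : ℕ → ℕ) : ℕ →. ℕ)} with hO
  have hG : RecT O (ind (joinSet M M')) := TR.refl _
  have hM : RecT O (ind M) := by
    have c : Computable (fun n : ℕ => 2 * n) :=
      (Primrec.nat_mul.comp (Primrec.const 2) Primrec.id).to_comp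
    have h := hG.comp (Computable.recT (O := O) c)
    have e : (fun n => ind (joinSet M M') (2 * n)) = ind M := funext (ind_even M M')
    rwa [e] at h
  have hM' : RecT O (ind M') := by
    have c : Computable (fun n : ℕ => 2 * n + 1) :=
      (Primrec.succ.comp (Primrec.nat_mul.comp (Primrec.const 2) Primrec.id)).to_comp
    have h := hG.comp (Computable.recT (O := O) c)
    have e : (fun n => ind (joinSet M M') (2 * n + 1)) = ind M' := funext (ind_odd M M')
    rwa [e] at h
  have hD : RecT O (dif M M') := by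
    have c : Computable (fun z : ℕ =>
        (z.unpair.1 - z.unpair.2) + (z.unpair.2 - z.unpair.1)) := by
      have p1 : Primrec (fun z : ℕ => z.unpair.1) := Primrec.fst.comp Primrec.unpair
      have p2 : Primrec (fun z : ℕ => z.unpair.2) := Primrec.snd.comp Primrec.unpair
      exact (Primrec.nat_add.comp (Primrec.nat_sub.comp p1 p2)
        (Primrec.nat_sub.comp p2 p1)).to_comp
    have h := (Computable.recT (O := O) c).comp (hM.pair hM')
    refine Nat.RecursiveIn.of_eq h ?_
    intro n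
    simp [dif]
  -- the search
  let q : ℕ → ℕ := fun z =>
    (z.unpair.1.unpair.2 - z.unpair.2) +
      (1 - (dif M M' (Nat.pair (2 * z.unpair.1.unpair.1) z.unpair.2) +
        dif M M' (Nat.pair (2 * z.unpair.1.unpair.1 + 1) z.unpair.2)))
  have p11 : Primrec (fun z : ℕ => z.unpair.1.unpair.1) :=
    Primrec.fst.comp (Primrec.unpair.comp (Primrec.fst.comp Primrec.unpair))
  have p12 : Primrec (fun z : ℕ => z.unpair.1.unpair.2) :=
    Primrec.snd.comp (Primrec.unpair.comp (Primrec.fst.comp Primrec.unpair))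
  have p2 : Primrec (fun z : ℕ => z.unpair.2) := Primrec.snd.comp Primrec.unpair
  have hq : RecT O q := by
    have c1 : Computable (fun z : ℕ => Nat.pair (2 * z.unpair.1.unpair.1) z.unpair.2) :=
      (Primrec₂.natPair.comp (Primrec.nat_mul.comp (Primrec.const 2) p11) p2).to_comp
    have c2 : Computable (fun z : ℕ => Nat.pair (2 * z.unpair.1.unpair.1 + 1) z.unpair.2) :=
      (Primrec₂.natPair.comp
        (Primrec.succ.comp (Primrec.nat_mul.comp (Primrec.const 2) p11)) p2).to_comp
    have d1 := hD.comp (Computable.recT (O := O) c1)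
    have d2 := hD.comp (Computable.recT (O := O) c2)
    have c3 : Computable (fun w : ℕ => w.unpair.1.unpair.1.unpair.2 - w.unpair.1.unpair.2 +
        (1 - (w.unpair.2.unpair.1 + w.unpair.2.unpair.2))) := by
      have a1 : Primrec (fun w : ℕ => w.unpair.1.unpair.1.unpair.2) :=
        p12.comp (Primrec.fst.comp Primrec.unpair)
      have a2 : Primrec (fun w : ℕ => w.unpair.1.unpair.2) :=
        p2.comp (Primrec.fst.comp Primrec.unpair)
      have a3 : Primrec (fun w : ℕ => w.unpair.2.unpair.1) :=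
        Primrec.fst.comp (Primrec.unpair.comp (Primrec.snd.comp Primrec.unpair))
      have a4 : Primrec (fun w : ℕ => w.unpair.2.unpair.2) :=
        Primrec.snd.comp (Primrec.unpair.comp (Primrec.snd.comp Primrec.unpair))
      exact (Primrec.nat_add.comp (Primrec.nat_sub.comp a1 a2)
        (Primrec.nat_sub.comp (Primrec.const 1) (Primrec.nat_add.comp a3 a4))).to_comp
    have h := (Computable.recT (O := O) c3).comp
      ((Computable.recT (O := O) Computable.id).pair (d1.pair d2))
    refine Nat.RecursiveIn.of_eq h ?_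
    intro n
    simp [q]
  have hcol : ∀ i s, v i ≤ s →
      ¬ (Nat.pair (2 * i + ind X i) s ∈ M ↔ Nat.pair (2 * i + ind X i) s ∈ M') →
      1 ≤ dif M M' (Nat.pair (2 * i) s) + dif M M' (Nat.pair (2 * i + 1) s) := by
    intro i s _ hs
    rcases ind_zero_or_one X i with h | h
    · rw [h, add_zero] at hs
      rcases dif_eq M M' (Nat.pair (2 * i) s) with ⟨-, h4⟩ | ⟨h4, -⟩
      · exact absurd h4 hs
      · omega
    · rw [h] at hs
      rcases dif_eq M M' (Nat.pair (2 * i + 1) s) with ⟨-, h4⟩ | ⟨h4, -⟩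
      · exact absurd h4 hs
      · omega
  have hex : ∀ a, ∃ n, q (Nat.pair a n) = 0 := by
    intro a
    obtain ⟨s, hs1, hs2⟩ := h1 a.unpair.1 (max (v a.unpair.1) a.unpair.2) (le_max_left _ _)
    refine ⟨s, ?_⟩
    have h4 := hcol a.unpair.1 s ((le_max_left _ _).trans hs1) hs2
    have h5 : a.unpair.2 ≤ s := (le_max_right _ _).trans hs1
    simp only [q, Nat.unpair_pair]
    omega
  have hnext := RecT.find hq hex
  let T : ℕ → ℕ := fun n => Nat.rec (v 0) (fun y ih => Nat.find (hex (Nat.pair y ih))) n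
  have hT : RecT O T := by
    have h := RecT.prec (f := fun _ => v 0) (Computable.recT (O := O) (Computable.const (v 0)))
      (hnext.comp (Computable.recT (O := O) (Computable.snd.comp Computable.unpair)))
    have h4 := h.comp (RecT.pair (Computable.recT (O := O) (Computable.const 0))
      (Computable.recT (O := O) Computable.id))
    refine Nat.RecursiveIn.of_eq h4 ?_
    intro n
    congr 1
    simp only [Nat.unpair_pair, id, T]
  have hTs : ∀ n, T (n + 1) = Nat.find (hex (Nat.pair n (T n))) := fun n => rfl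
  have hspec : ∀ n, T n ≤ T (n + 1) ∧
      1 ≤ dif M M' (Nat.pair (2 * n) (T (n + 1))) + dif M M' (Nat.pair (2 * n + 1) (T (n + 1))) := by
    intro n
    have h := Nat.find_spec (hex (Nat.pair n (T n)))
    rw [← hTs n] at h
    simp only [q, Nat.unpair_pair] at h
    omega
  have hTv : ∀ n, v n ≤ T n := by
    intro n
    induction n with
    | zero => exact le_refl _
    | succ n ih =>
      obtain ⟨h4, h5⟩ := hspec n
      have h6 : v n ≤ T (n + 1) := ih.trans h4
      apply h3 n _ h6
      have h7 := h2 n (T (n + 1)) h6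
      rcases ind_zero_or_one X n with h | h
      · rw [h] at h7 ⊢
        simp only [add_zero, Nat.sub_zero] at h7 ⊢
        rcases dif_eq M M' (Nat.pair (2 * n + 1) (T (n + 1))) with ⟨h8, -⟩ | ⟨-, h8⟩
        · rcases dif_eq M M' (Nat.pair (2 * n) (T (n + 1))) with ⟨h9, -⟩ | ⟨-, h9⟩
          · omega
          · exact h9
        · exact absurd h7 h8
      · rw [h] at h7 ⊢
        simp only [Nat.sub_self, add_zero] at h7 ⊢
        rcases dif_eq M M' (Nat.pair (2 * n) (T (n + 1))) with ⟨h8, -⟩ | ⟨-, h8⟩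
        · rcases dif_eq M M' (Nat.pair (2 * n + 1) (T (n + 1))) with ⟨h9, -⟩ | ⟨-, h9⟩
          · omega
          · exact h9
        · exact absurd h7 h8
  have hX : ∀ n, ind X n = dif M M' (Nat.pair (2 * n + 1) (T (n + 1))) := by
    intro n
    obtain ⟨h4, h5⟩ := hspec n
    have h6 : v n ≤ T (n + 1) := (hTv n).trans h4
    have h7 := h2 n (T (n + 1)) h6
    rcases ind_zero_or_one X n with h | h
    · rw [h] at h7
      simp only [Nat.sub_zero] at h7
      rcases dif_eq M M' (Nat.pair (2 * n + 1) (T (n + 1))) with ⟨h8, -⟩ | ⟨-, h8⟩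
      · rw [h, h8]
      · exact absurd h7 h8
    · rw [h] at h7
      simp only [Nat.sub_self, add_zero] at h7
      rcases dif_eq M M' (Nat.pair (2 * n + 1) (T (n + 1))) with ⟨h8, -⟩ | ⟨h8, -⟩
      · rcases dif_eq M M' (Nat.pair (2 * n) (T (n + 1))) with ⟨h9, -⟩ | ⟨-, h9⟩
        · omega
        · exact absurd h7 h9
      · rw [h, h8]
  have c : Computable (fun n : ℕ => n + 1) := Computable.succ
  have c1 : Computable (fun n : ℕ => 2 * n + 1) :=
    (Primrec.succ.comp (Primrec.nat_mul.comp (Primrec.const 2) Primrec.id)).to_comp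
  have h := hD.comp (RecT.pair (Computable.recT (O := O) c1) (hT.comp (Computable.recT (O := O) c)))
  have e : (fun n => dif M M' (Nat.pair (2 * n + 1) (T (n + 1)))) = ind X := by
    funext n
    rw [hX]
  rwa [e] at h

end Pool.Agent.TH787.Sil
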