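import Pool.Agent.Helper669.KDelta
set_option autoImplicit false
namespace Pool.Agent.TH787.Sil
open Cardinal
open Pool.Agent.Helper669.KDelta

theorem thin {E K D : Type} (hE : ¬ #E ≤ 𝔠) (hDc : #D ≤ 𝔠) (e : E → ℕ → K)
    (he : ∀ b, Function.Injective (e b)) (d : E → D) :
    ∃ (T : Set E) (A : Set ℕ), ¬ #T ≤ 𝔠 ∧ (∀ b ∈ T, ∀ b' ∈ T, d b = d b') ∧
      (∀ b ∈ T, ∀ b' ∈ T, ∀ i ∈ A, e b i = e b' i) ∧
      ∀ b ∈ T, ∀ b' ∈ T, b ≠ b' → ∀ i j, e b i = e b' j → i = j ∧ i ∈ A := by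
  classical
  obtain ⟨T0, R, hT0, hR, hsub⟩ := weak_delta aleph0_le_continuum hE (fun b => Set.range (e b))
    (fun b => lt_of_le_of_lt (Cardinal.mk_range_le.trans (by simp)) aleph0_lt_continuum)
  let g : E → D × (ℕ → Option R) := fun b =>
    (d b, fun i => if h : e b i ∈ R then some ⟨e b i, h⟩ else none)
  have hcod : #(D × (ℕ → Option R)) ≤ 𝔠 := by
    rw [Cardinal.mk_prod, Cardinal.lift_id, Cardinal.lift_id]
    have h1 : #(Option R) ≤ 𝔠 := by
      rw [Cardinal.mk_option]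
      calc #R + 1 ≤ 𝔠 + 𝔠 := add_le_add hR (by
            exact (one_lt_aleph0.le).trans aleph0_le_continuum)
        _ = 𝔠 := Cardinal.add_eq_self aleph0_le_continuum
    have h2 : #(ℕ → Option R) ≤ 𝔠 := by
      rw [← Cardinal.power_def, Cardinal.mk_nat]
      calc #(Option R) ^ ℵ₀ ≤ 𝔠 ^ ℵ₀ := Cardinal.power_le_power_right h1
        _ = 𝔠 := continuum_power_aleph0
    calc #D * #(ℕ → Option R) ≤ 𝔠 * 𝔠 := mul_le_mul' hDc h2
      _ = 𝔠 := Cardinal.mul_eq_self aleph0_le_continuum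
  have hy : ∃ y, ¬ #(T0 ∩ g ⁻¹' {y} : Set E) ≤ 𝔠 := by
    by_contra hcon
    push Not at hcon
    apply hT0
    refine small_mono (t := ⋃ y, T0 ∩ g ⁻¹' {y}) ?_
      (small_iUnion aleph0_le_continuum hcod _ hcon)
    intro b hb
    exact Set.mem_iUnion.2 ⟨g b, hb, rfl⟩
  obtain ⟨y, hy⟩ := hy
  refine ⟨T0 ∩ g ⁻¹' {y}, {i | (y.2 i).isSome}, hy, ?_, ?_, ?_⟩
  · rintro b ⟨-, hb⟩ b' ⟨-, hb'⟩
    have h1 : d b = y.1 := congrArg Prod.fst hb
    have h2 : d b' = y.1 := congrArg Prod.fst hb'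
    rw [h1, h2]
  · rintro b ⟨-, hb⟩ b' ⟨-, hb'⟩ i hi
    obtain ⟨r, hr⟩ := Option.isSome_iff_exists.1 hi
    have key : ∀ b, g b = y → e b i = r := by
      intro b hb
      have h1 : (g b).2 i = y.2 i := by rw [hb]
      rw [hr] at h1
      simp only [g] at h1
      by_cases h : e b i ∈ R
      · rw [dif_pos h] at h1
        have h2 := Option.some.inj h1
        exact congrArg Subtype.val h2
      · rw [dif_neg h] at h1
        exact absurd h1 (by simp)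
    rw [key b hb, key b' hb']
  · rintro b ⟨hb0, hb⟩ b' ⟨hb'0, hb'⟩ hne i j hij
    have hR1 : e b i ∈ R := hsub b hb0 b' hb'0 hne ⟨⟨i, rfl⟩, ⟨j, hij.symm⟩⟩
    have key : ∀ b, g b = y → ∀ i, e b i ∈ R → ∀ b', g b' = y → (y.2 i).isSome ∧ e b' i = e b i := by
      intro b hb i hi b' hb'
      have h1 : (g b).2 i = some ⟨e b i, hi⟩ := by simp only [g]; rw [dif_pos hi]
      rw [hb] at h1
      refine ⟨by rw [h1]; rfl, ?_⟩
      have h2 : (g b').2 i = some ⟨e b i, hi⟩ := by rw [hb', h1]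
      simp only [g] at h2
      by_cases h : e b' i ∈ R
      · rw [dif_pos h] at h2
        exact congrArg Subtype.val (Option.some.inj h2)
      · rw [dif_neg h] at h2
        exact absurd h2 (by simp)
    obtain ⟨h1, h2⟩ := key b hb i hR1 b' hb'
    refine ⟨?_, h1⟩
    apply he b'
    rw [h2, hij]

end Pool.Agent.TH787.Sil
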